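import Pool.Agent.J4H22.GA.Gap

/-!
# A gap theorem for the advice that is needed for complements in `NE`

The problem asks (by the theorem of Jones and Selman) whether `NE` is closed under complements. With
`n + 1` bits of advice (the number of the strings of length `n` in the language) a nondeterministic
machine decides the complement of a language in `NE`; the question is whether `0` bits are enough.

Main result: if for some `β < 1` the complement of every language in `NE` is decided in `NE` with
`β n + O(1)` bits of advice, then for every `β > 0` it is. This holds relative to every oracle, and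
for `NEXP`, too.

Proof. Let `T` decide the complement of `S` with the advice `w(n)`. A string `α` of length at most
`β n + O(1)` is refuted if for some `x` of length `n` both `x ∈ S` and `(α, x) ∈ T`. The codes of
the refuted strings are a language `R` in `NE`, and `α` and `n` can be coded by a string of length
`γ n + O(1)` for any `γ > β`. A string `x` of length `n` is not in `S` if and only if some `α` is not
refuted and `(α, x) ∈ T`. So the complement of `S` is decided with the advice for the complement of
`R` at the length `γ n + O(1)`, which has length `β' γ n + O(1)` if `β' n + O(1)` bits are enough for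
all complements. Iterate.
-/

set_option autoImplicit false

namespace Pool.Agent.Results.MP_8d783e_lc.AdviceGap

open Pool.Agent.NPC Pool.Agent.H620R2.Gauge Pool.Agent.H622R2.Exp Pool.Agent.J4H22.WA
open Pool.Agent.J4H22.GA

/-- **The gap.** `Advice C a L` says that `L` is in the class `C` with at most `a n` bits of advice
for the inputs of length `n`. -/
theorem result (A : Oracle) (E : Set (Polynomial ℕ)) (hE : E = Lin ∨ E = Pol) :
    (∃ β : ℝ, β < 1 ∧ ∀ S : Set (List Bool), InNTime E A S →
      ∃ c : ℝ, Advice (InNTime E A) (fun n => β * n + c) Sᶜ) ↔
    ∀ δ : ℝ, 0 < δ → ∀ S : Set (List Bool), InNTime E A S →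
      ∃ c : ℝ, Advice (InNTime E A) (fun n => δ * n + c) Sᶜ := by
  have hG : Good E ∧ Good2 E := by
    rcases hE with rfl | rfl
    · exact ⟨good_Lin, good2_Lin⟩
    · exact ⟨good_Pol, good2_Pol⟩
  constructor
  · rintro ⟨β, hβ, h⟩ δ hδ
    exact gap hG.1 hG.2 hβ h hδ
  · intro h
    exact ⟨1 / 2, by norm_num, h (1 / 2) (by norm_num)⟩

end Pool.Agent.Results.MP_8d783e_lc.AdviceGap
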