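import Pool.Agent.J4H63.AS.Double

/-!
# Asser's problem for sentences whose models have a part which can be multiplied

Definitions (in `Pool/Agent/J4H63/AS`, files `Blow.lean` and `EP.lean`):

* `Blow k B` is the structure obtained from `M` by replacing the part `B` by `k` disjoint copies
  of itself: its universe consists of the elements outside of `B` and of `k` copies of `B`; for each
  `i` there is the map `cp B i` of `M` into it, which sends `B` to the copy number `i` and is the
  identity outside of `B`; a relation holds when it is the image of one in `M` by some `cp B i`.
  For `B = M` it is the disjoint union of `k` copies of `M`;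
* `interface L B` is the set of the elements outside of `B` which occur in a tuple of a relation
  together with an element of `B`;
* `Multipliable φ s n₀`: every finite model `M` of `φ` with at least `n₀` elements has a nonempty
  subset `B` whose interface has at most `s` elements, such that `Blow k B` is a model of `φ` for
  arbitrarily large `k`;
* `Spec φ`: the spectrum; `EvPeriodic S`: there are `N` and `d > 0` such that
  `n ∈ S ↔ n + d ∈ S` for all `n ≥ N`.

There is no bound on the size of the parts `B` and no assumption on their structure.

Idea.  By the composition method the theory of quantifier rank `q` of a structure glued from two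
parts along at most `s` elements is determined by the types of the parts, of which there are
finitely many, and the type of `k > q` copies of a part does not depend on `k`.  Hence the sizes of
the structures which have the type of many copies of some `B` are closed under addition, and
contain all large multiples of a number which divides `|B|`.
-/

set_option autoImplicit false

namespace Pool.Agent.Results.MP_8d783e_lc.MultipliableParts

open FirstOrder FirstOrder.Language Pool.Agent.J4H63.AS

theorem result (L : FirstOrder.Language.{0, 0}) [L.IsRelational] [Finite (Σ r, L.Relations r)]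
    (φ : L.Sentence)
    (h : (∃ s n₀ : ℕ, Multipliable φ s n₀) ∨
      ∀ (M : Type) [L.Structure M] [Finite M], Nonempty M → M ⊨ φ →
        Blow 2 (Set.univ : Set M) ⊨ φ) :
    EvPeriodic (Spec φ) ∧
    ∃ (L' : FirstOrder.Language.{0, 0}) (ψ : L'.Sentence), ∀ n : ℕ,
      (0 < n ∧ ∃ (M : Type) (_ : L'.Structure M), Nat.card M = n ∧ ψ.Realize M) ↔
        (0 < n ∧ ¬ ∃ (M : Type) (_ : L.Structure M), Nat.card M = n ∧ φ.Realize M) := by
  have hp : EvPeriodic (Spec φ) := by
    rcases h with ⟨s, n₀, h⟩ | h
    · exact spec_evPeriodic φ h
    · exact spec_evPeriodic φ (multipliable_of_double φ h)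
  refine ⟨hp, ?_⟩
  obtain ⟨L', ψ, hψ⟩ := isSpectrum_of_evPeriodic (S := {n | 0 < n ∧ n ∉ Spec φ})
    (fun h0 => lt_irrefl 0 h0.1) hp.compl
  refine ⟨L', ψ, fun n => ?_⟩
  rw [← hψ n]
  constructor
  · rintro ⟨h1, h2⟩
    exact ⟨h1, fun h3 => h2 ⟨h1, h3⟩⟩
  · rintro ⟨h1, h2⟩
    exact ⟨h1, fun h3 => h2 h3.2⟩

end Pool.Agent.Results.MP_8d783e_lc.MultipliableParts
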