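import Pool.Agent.J4H63.AS.ParityMain

/-!
# Asser's problem, and the parity of the census for 98 percent of the numbers

`IsSpectrum S` says that `S` is the spectrum of a first-order sentence (file
`Pool/Agent/J4H63/AS/Def.lean`).  The census of a set `S` of positive integers at `n` is the number
of its members up to `n`.

The theorem: the complement of every spectrum is a spectrum if and only if for every spectrum `S`
the set of the `n` at which the census of `S` is even is a spectrum, and if and only if for every
spectrum `S` this set agrees with some spectrum `T` at 98 percent of the numbers (for all large `N`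
there are at most `N / 50` numbers `n ≤ N` at which they disagree; the disagreement may be in both
directions).

Idea.  A binary code of relative distance `3 / 32` on the subsets of `{0, …, 2 ^ j - 1}` is given by
the parities of their intersections with the sets `A_y`, where `y` codes an affine map
`x ↦ α x + β mod p`, and a set `g` of dyadic scales; the distance comes from the isolation of an
element by pairwise independence.  From a spectrum `S` one makes a spectrum `S1 S` whose census is,
for nearly all `N` below `(2 ^ (j + 1)) ^ 13`, of the same parity as one of the bits of the code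
word of `S ∩ {0, …, 2 ^ j - 1}`, and the bits are spread evenly: the block of the position `y`
starts with `S ∩ A_y`, and ends with another copy of it which makes the parity even again.
If the parities of the census of `S1 S` and of `S1 S ∪ {1}` are guessed by two spectra with few
errors, a certificate of `n ∉ S` is a set `X ⊆ {0, …, 2 ^ j - 1}` which does not have the member
`n`, and such that for nearly all positions the bit of the code word of `X` is confirmed by one of
the two spectra.  That these certificates give a spectrum is shown by means of a normal form: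
`S` is a spectrum if and only if it is defined by a formula with existentially quantified set
variables, and bounded number quantifiers, over the structure of the natural numbers with addition
and multiplication (`isSpectrum_iff` in `Pool/Agent/J4H63/AS/Pow.lean`).
-/

set_option autoImplicit false

namespace Pool.Agent.Results.MP_8d783e_lc.ParityOfCensus

open FirstOrder FirstOrder.Language Pool.Agent.J4H63.AS

theorem result : List.TFAE [
    ∀ (L : FirstOrder.Language.{0, 0}) (φ : L.Sentence),
      ∃ (L' : FirstOrder.Language.{0, 0}) (ψ : L'.Sentence), ∀ n : ℕ,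
        (0 < n ∧ ∃ (M : Type) (_ : L'.Structure M), Nat.card M = n ∧ ψ.Realize M) ↔
          (0 < n ∧ ¬ ∃ (M : Type) (_ : L.Structure M), Nat.card M = n ∧ φ.Realize M),
    ∀ S : Set ℕ, IsSpectrum S → IsSpectrum {n | 0 < n ∧ Even {k | k ≤ n ∧ k ∈ S}.ncard},
    ∀ S : Set ℕ, IsSpectrum S → ∃ T : Set ℕ, IsSpectrum T ∧ ∃ N₀ : ℕ, ∀ N ≥ N₀,
      50 * {n | 0 < n ∧ n ≤ N ∧ ¬ (n ∈ T ↔ Even {k | k ≤ n ∧ k ∈ S}.ncard)}.ncard ≤ N] := by
  tfae_have 1 → 2 := by
    intro H S hS
    refine evenCensus_spectrum hS ?_
    obtain ⟨L, φ, h⟩ := hS
    obtain ⟨L', ψ, h'⟩ := H L φ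
    refine ⟨L', ψ, fun n => ?_⟩
    rw [h' n]
    show (0 < n ∧ n ∉ S) ↔ _
    rw [h n]
    exact ⟨fun a => ⟨a.1, fun c => a.2 ⟨a.1, c⟩⟩, fun a => ⟨a.1, fun c => a.2 c.2⟩⟩
  tfae_have 2 → 3 := by
    intro H S hS
    refine ⟨_, H S hS, 0, fun N _ => ?_⟩
    have : {n | 0 < n ∧ n ≤ N ∧ ¬ (n ∈ {n | 0 < n ∧ Even {k | k ≤ n ∧ k ∈ S}.ncard} ↔
        Even {k | k ≤ n ∧ k ∈ S}.ncard)} = ∅ := by
      ext n
      simp only [Set.mem_setOf_eq, Set.mem_empty_iff_false, iff_false]
      rintro ⟨h1, _, h2⟩
      exact h2 ⟨fun h => h.2, fun h => ⟨h1, h⟩⟩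
    rw [this, Set.ncard_empty]
    exact Nat.zero_le _
  tfae_have 3 → 1 := by
    intro H L φ
    have hS : IsSpectrum {n | 0 < n ∧ ∃ (M : Type) (_ : L.Structure M),
        Nat.card M = n ∧ φ.Realize M} := ⟨L, φ, fun n => Iff.rfl⟩
    obtain ⟨L', ψ, h⟩ := compl_of_approx H hS
    refine ⟨L', ψ, fun n => ?_⟩
    rw [← h n]
    show (0 < n ∧ ¬ (0 < n ∧ ∃ (M : Type) (_ : L.Structure M),
        Nat.card M = n ∧ φ.Realize M)) ↔ _
    exact ⟨fun a => ⟨a.1, fun c => a.2 ⟨a.1, c⟩⟩, fun a => ⟨a.1, fun c => a.2 c.2⟩⟩
  tfae_finish

end Pool.Agent.Results.MP_8d783e_lc.ParityOfCensus
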