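import Pool.Agent.J4H22.WA.ParFin

/-!
# Asser's problem and the prediction of parities with a tiny advantage

The problem asks (by the theorem of Jones and Selman) whether `NE` is closed under complements. The
classes are relative to an arbitrary oracle `A` (the empty oracle gives the class of the question),
with linear exponents (`Lin`, that is `NE`), and also with polynomial exponents (`Pol`, that is
`NEXP`): `InNTime E A S` says that `S` is in the class (definitions in
`Pool.Agent.H620R2.Gauge.Defs` and `Pool.Agent.H622R2.Exp.Defs`).

`par S` (in `Pool.Agent.J4H22.WA.Defs3`) is the set of the strings `x` such that the number of the
strings `u` of the same length with `x u ∈ S` is odd; `agr T L n` (in `Pool.Agent.J4H22.WA.Defs2`)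
is the number of the strings of length `n` for which the languages `T` and `L` agree.

Main result: let `0 < γ < 1/4`. `NE` is closed under complements if and only if for every `S` in
`NE` there is a `T` in `NE` which agrees with `par S` for a fraction of at least `1/2 + 2 ^ (-γ n)`
of the strings of length `n`, for all but finitely many `n`. (So if Asser's question has a negative
answer, then some parity `par S` cannot be predicted by a language in `NE` with the advantage
`2 ^ (-γ n)` at all large lengths.)

Proof. 1. The result of every nonadaptive computation with questions to a language in `NE` is a
parity: to a string `y u` belongs a nondeterministic machine which guesses a list `F` of positive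
answers, and accepts if the number `u` is less than `2 k + β(y, F)`, where `k` is the number of the
positive answers in `F`; the accepted `u` are an initial segment, whose length is given by the full
list.
2. So the code word of the complement of the truth table of `L` in `NE` (values of a polynomial
modulo a prime number, and inner products of their digits) is a parity, and if it is predicted by
`T`, then with `O(n)` bits of advice a nondeterministic machine can guess and verify the table of
the complement of `L` (list decoding with the Cauchy-Schwarz inequality).
3. The advice is eliminated: `L` is padded, so that only the lengths `N = 2 ^ (b i)` matter. The
first advice which is good for the length `N` can be computed with nonadaptive questions about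
strings of length `O(N)`. Its bits (and their complements) are put into the lengths `C N + t`, one
bit for each length, in a language which contains all or no strings of a given length. This is a
parity, and it is predicted, too, so a nondeterministic machine can verify these bits, by guessing
more than half of the strings of length `C N + t` with certificates.
-/

set_option autoImplicit false

namespace Pool.Agent.Results.MP_8d783e_lc.PredictedParities

open Pool.Agent.NPC Pool.Agent.H620R2.Gauge Pool.Agent.H622R2.Exp Pool.Agent.J4H22.WA Filter

/-- **`NE` is closed under complements if and only if the parities of the languages in `NE` are
predicted by languages in `NE` with an exponentially small advantage.** -/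
theorem result (A : Oracle) (E : Set (Polynomial ℕ)) (hE : E = Lin ∨ E = Pol) (γ : ℝ)
    (h0 : 0 < γ) (h : γ < 1 / 4) :
    (∀ S : Set (List Bool), InNTime E A S → InNTime E A Sᶜ) ↔
      ∀ S : Set (List Bool), InNTime E A S →
        ∃ T : Set (List Bool), InNTime E A T ∧
          ∀ᶠ n : ℕ in atTop, (1 / 2 + (2 : ℝ) ^ (-(γ * n))) * 2 ^ n ≤ agr T (par S) n := by
  have hG : Good E ∧ Good2 E := by
    rcases hE with rfl | rfl
    · exact ⟨good_Lin, good2_Lin⟩
    · exact ⟨good_Pol, good2_Pol⟩
  exact parity_iff hG.1 hG.2 h0 h

end Pool.Agent.Results.MP_8d783e_lc.PredictedParities
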